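import Pool.Agent.TH943.SF.Main

/-!
Semisimplicity of Frobenius on the second cohomology of the surfaces
`D(t) y ^ 2 = (x - h(t)) f(x)` over a finite field.
-/

set_option autoImplicit false
set_option maxHeartbeats 1000000

open Polynomial

namespace Pool.Agent.Results.MP_1fe969_ag.SquarefreePencils

/-- The closed points of the affine line over the field `F`: monic irreducible polynomials. -/
abbrev ClosedPt (F : Type) [Field F] : Type := {P : F[X] // P.Monic ∧ Irreducible P}

section generic

variable {F : Type} [Field F]

open Classical in
/-- The quadratic character of the field `F[x] / (Q)` at the class of `h`. -/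
noncomputable def quadChar (h Q : F[X]) : ℤ :=
  if Q ∣ h then 0 else if ∃ s : F[X], Q ∣ h - s ^ 2 then 1 else -1

/-- The degree of the closed point `Q` of the line over a field `F` of degree `d`. -/
noncomputable def ptDegree (d : ℕ) (Q : ClosedPt F) : ℕ := d * Q.1.natDegree

/-- The Euler factor `1 - χ T ^ n`, where `χ` is the value of the quadratic character of the residue
field of `Q` at `h`, and `n` is the degree of `Q`. -/
noncomputable def ptFactor (h : F[X]) (d : ℕ) (Q : ClosedPt F) : PowerSeries ℤ :=
  1 - PowerSeries.C (quadChar h Q.1) * PowerSeries.X ^ ptDegree d Q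

end generic

/-- The Euler product: its coefficient of index `n` is that of the product of the factors of degree
at most `n`. -/
noncomputable def eulerProduct {ι : Type} (d : ι → ℕ) (f : ι → PowerSeries ℤ) : PowerSeries ℤ :=
  PowerSeries.mk fun n => PowerSeries.coeff n (∏ᶠ (i : ι) (_ : d i ≤ n), f i)

/-- The product of the factors `1 - χ T ^ n` over the closed points of the affine line over `F`, `χ`
the value of the quadratic character at `h`. -/
noncomputable def lineProduct {F : Type} [Field F] (h : F[X]) : PowerSeries ℤ :=
  eulerProduct (fun Q : ClosedPt F => ptDegree 1 Q) (fun Q => ptFactor h 1 Q)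

section defs

variable {k : Type} [Field k]

/-- The residue field of the closed point `P` of the `t`-line. -/
def Res (P : ClosedPt k) : Type := AdjoinRoot P.1

noncomputable instance resField (P : ClosedPt k) : Field (Res P) :=
  @AdjoinRoot.instField k _ P.1 ⟨P.2.2⟩

/-- The value at `P` of a polynomial in `t`. -/
noncomputable def value (P : ClosedPt k) (g : k[X]) : Res P := AdjoinRoot.mk P.1 g

/-- The inclusion of the constants in the residue field. -/
noncomputable def constants (P : ClosedPt k) : k →+* Res P := AdjoinRoot.of P.1

/-- The polynomial `D(t) (x - h(t)) f(x)` in `x` over the residue field of the closed point `P`. -/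
noncomputable def fibre (f h D : k[X]) (P : ClosedPt k) : (Res P)[X] :=
  C (value P D) * ((X - C (value P h)) * f.map (constants P))

/-- The closed points of the `(t, x)`-plane with `D(t) ≠ 0`: a closed point of the `t`-line and a
closed point of the `x`-line over its residue field. -/
structure PlanePt (D : k[X]) : Type where
  place : ClosedPt k
  ndvd : ¬ place.1 ∣ D
  point : ClosedPt (Res place)

/-- The degree of a closed point of the plane. -/
noncomputable def PlanePt.deg {D : k[X]} (z : PlanePt D) : ℕ :=
  ptDegree z.place.1.natDegree z.point

/-- The Euler factor of a closed point of the plane. -/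
noncomputable def PlanePt.factor {D : k[X]} (f h : k[X]) (z : PlanePt D) : PowerSeries ℤ :=
  ptFactor (fibre f h D z.place) z.place.1.natDegree z.point

open Classical in
/-- The Euler factor at `t = ∞`: if the degree of `h D` is even then it is the product over the closed
points of the affine line for the reduction `y ^ 2 = - c f(x)`, `c` the leading coefficient of `h D`;
otherwise the factor is one. -/
noncomputable def infFactor (f h D : k[X]) : PowerSeries ℤ :=
  if Even (h.natDegree + D.natDegree) then
    lineProduct (C (-(h.leadingCoeff * D.leadingCoeff)) * f) else 1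

/-- The `L`-function in the variable `T` of the Jacobian of the curve `D(t) y ^ 2 = (x - h(t)) f(x)`
over `k(t)`, `f` monic of odd degree: the product of `1 - χ(z) T ^ deg z` over the closed points `z` of
the plane with `D(t) ≠ 0`, where `χ(z)` is the quadratic character of the residue field of `z` at
`D(t) (x - h(t)) f(x)`, times the product of the factors `1 - χ(P) T ^ deg P` of the points `x = ∞` of
the fibres, with the quadratic character `χ(P)` of the residue field of `P` at `D`, times the factor
at `t = ∞`. -/
noncomputable def Lfun (f h D : k[X]) : PowerSeries ℤ :=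
  eulerProduct (fun z : PlanePt D => z.deg) (fun z => z.factor f h) * lineProduct D *
    infFactor f h D

open Classical in
/-- The degree of the conductor of the Jacobian: one for each zero of `f(h(t))`, `2 g = deg f - 1` for
each zero of `D(t)`, and `2 g` for `t = ∞` if the degree of `h D` is odd. -/
noncomputable def conductorDegree (f h D : k[X]) : ℕ :=
  f.natDegree * h.natDegree + (f.natDegree - 1) * D.natDegree +
    if Even (h.natDegree + D.natDegree) then 0 else f.natDegree - 1

/-- The polynomials `f` and `f(h(t))` are irreducible, `f` is monic of odd degree at least three, the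
degree of `h` is odd, and `D` is a nonzero constant or an irreducible polynomial of odd degree prime
to the degrees of `f` and of `h`. -/
structure IsAdmissible (f h D : k[X]) : Prop where
  monic : f.Monic
  irreducible : Irreducible f
  odd : Odd f.natDegree
  degree : 3 ≤ f.natDegree
  oddPullback : Odd h.natDegree
  irreducibleComp : Irreducible (f.comp h)
  twist : (∃ c : k, c ≠ 0 ∧ D = C c) ∨
    (Irreducible D ∧ Odd D.natDegree ∧ Nat.Coprime D.natDegree (f.natDegree * h.natDegree))

/-- The endomorphism `Φ` of the vector space `V = W ⊕ N` is the Frobenius of the second cohomology of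
the surface: `det (1 - T Φ)` on `W = H¹(P¹, j_* R¹ π_* Q_ℓ)` is the `L`-function, the dimension of `W`
is given by the formula of Grothendieck, Ogg and Shafarevich, and on the part `N` generated by the
classes of the components of the fibres and of a multisection a power of `Φ / q` is the identity. -/
structure IsSecondCohomology (f h D : k[X]) {E V : Type} [Field E] [AddCommGroup V] [Module E V]
    [FiniteDimensional E V] (Φ : Module.End E V) (W N : Submodule E V) : Prop where
  sum : IsCompl W N
  injective : Function.Injective Φ
  stable : ∀ v ∈ W, Φ v ∈ W
  lefschetz : ∃ P : ℤ[X], (P : PowerSeries ℤ) = Lfun f h D ∧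
    P.map (Int.castRingHom E) = (Φ.restrict stable).charpoly.reverse
  dimension : Module.finrank E W + 2 * (f.natDegree - 1) = conductorDegree f h D
  divisors : ∃ r : ℕ, 0 < r ∧ ∀ v ∈ N, (Φ ^ r) v = ((Nat.card k : E) ^ r) • v

/-- the equivalence of the two descriptions of the points of the plane -/
noncomputable def planeEquiv (D : k[X]) :
    (Σ P : {P : Pool.Agent.W313.Hyp.MI k // ¬ P.1 ∣ D},
      Pool.Agent.W313.Hyp.MI (Pool.Agent.TH943.HJ.RF P.1)) ≃ PlanePt D where
  toFun z := ⟨z.1.1, z.1.2, z.2⟩
  invFun z := ⟨⟨z.place, z.ndvd⟩, z.point⟩
  left_inv _ := rfl
  right_inv _ := rfl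

theorem Lfun_eq {f : k[X]} (ho : Odd f.natDegree) (h D : k[X]) :
    Lfun f h D = Pool.Agent.TH943.LP.LL f h D := by
  unfold Lfun Pool.Agent.TH943.LP.LL
  congr 1
  congr 1
  · unfold Pool.Agent.TH943.LP.LF eulerProduct Pool.Agent.W343.BSD.eulerProd
    ext n
    rw [PowerSeries.coeff_mk, PowerSeries.coeff_mk]
    congr 1
    exact (finprod_comp_equiv (planeEquiv D)
      (f := fun z : PlanePt D => ∏ᶠ (_ : z.deg ≤ n), z.factor f h)).symm
  · unfold Pool.Agent.TH943.LP.infX
    rw [if_pos ho]
    rfl

theorem squarefree_part [Finite k] (h2 : (2 : k) ≠ 0) {f h D : k[X]} (hf : IsAdmissible f h D)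
    {E V : Type} [Field E] [CharZero E] [AddCommGroup V] [Module E V] [FiniteDimensional E V]
    {Φ : Module.End E V} {W N : Submodule E V} (hH : IsSecondCohomology f h D Φ W N) :
    Squarefree (Φ.restrict hH.stable).charpoly := by
  obtain ⟨P, hP, hPE⟩ := hH.lefschetz
  rw [Lfun_eq hf.odd] at hP
  have hinj : Function.Injective (Φ.restrict hH.stable) := by
    intro a b hab
    apply Subtype.ext
    apply hH.injective
    exact congrArg Subtype.val hab
  have hdim := hH.dimension
  unfold conductorDegree at hdim
  have hdeg := hf.degree
  have hm := hf.oddPullback.pos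
  obtain ⟨n, hn⟩ : ∃ n, f.natDegree = n + 1 := ⟨f.natDegree - 1, by omega⟩
  rcases hf.twist with ⟨c, hc, rfl⟩ | ⟨hQ, hQo, hQc⟩
  · obtain ⟨h3, h4⟩ := Pool.Agent.TH943.SF.mod_const h2 hf.irreducible hf.odd hf.oddPullback
      hf.irreducibleComp hc hP
    refine Pool.Agent.TH943.SF.charpoly_squarefree _ hinj hPE h3 ?_
    have hev : ¬ Even (h.natDegree + (C c : k[X]).natDegree) := by
      rw [natDegree_C, add_zero, Nat.not_even_iff_odd]
      exact hf.oddPullback
    rw [if_neg hev, natDegree_C, mul_zero, add_zero] at hdim
    omega
  · have hQ1 : D = C 1 * D := by rw [C_1, one_mul]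
    rw [hQ1] at hP
    obtain ⟨h3, h4⟩ := Pool.Agent.TH943.SF.mod_prime h2 hf.irreducible hf.odd hf.degree
      hf.oddPullback hf.irreducibleComp hQ hQo hQc (one_ne_zero : (1 : k) ≠ 0) hP
    refine Pool.Agent.TH943.SF.charpoly_squarefree _ hinj hPE h3 ?_
    have hev : Even (h.natDegree + D.natDegree) := hf.oddPullback.add_odd hQo
    rw [if_pos hev, add_zero] at hdim
    rw [hn] at hdim h4
    rw [Nat.add_sub_cancel] at hdim
    have h5 : (n + 1) * D.natDegree = n * D.natDegree + D.natDegree := by ring
    rw [h5] at h4
    omega

end defs

/-- **Semisimplicity of Frobenius on the second cohomology of surfaces fibred in hyperelliptic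
curves.**

Let `k` be a finite field with `q` elements of odd characteristic, `f` a monic irreducible polynomial
over `k` of odd degree `n = 2 g + 1 ≥ 3`, `h` a polynomial of odd degree `m` such that `f(h(t))` is
irreducible, for example `h = t`, and `D` a nonzero constant or any irreducible polynomial over `k`
of odd degree `d` prime to `n m`. Let `S` be a smooth projective surface over `k` birational to
`D(t) y ^ 2 = (x - h(t)) f(x)`; blowing up, we may suppose that there is the fibration `π` over the
`t`-line, in curves of genus `g`. It is known that `V = H²(S, Q_ℓ)` is the orthogonal sum of the part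
`N` generated by the classes of the components of the fibres and of a multisection, and of
`W = H¹(P¹, j_* R¹ π_* Q_ℓ)`, on which `det (1 - T Φ)`, `Φ` the geometric Frobenius, is the L-function
of the Jacobian `J` of the generic fibre. At the zeros of `f(h(t))` the fibre is semistable with one
node; at the zeros of `D` there are no inertia invariants; the other finite places are places of good
reduction; at infinity there is the good reduction `y ^ 2 = - c f(x)` if the degree of `h D` is even,
and a ramified quadratic twist of good reduction, without invariants, if the degree is odd. Hence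
`IsSecondCohomology` holds, with `dim W = n (m - 1) + 1` for constant `D`, and
`dim W = n (m - 1) + (n - 1) (d - 1) + 1` otherwise.

Then for every prime `ℓ` Frobenius is semisimple on the second cohomology, every generalized
eigenspace is the eigenspace, and all eigenvalues of Frobenius on `W` are distinct; in particular the
multiplicity of the eigenvalue `q` on `W` is at most one. The geometric genus of these surfaces is
unbounded. -/
theorem result (k : Type) [Field k] [Finite k] (h2 : (2 : k) ≠ 0) (f h D : k[X])
    (hf : IsAdmissible f h D) (E V : Type) [Field E] [CharZero E] [AddCommGroup V] [Module E V]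
    [FiniteDimensional E V] (Φ : Module.End E V) (W N : Submodule E V)
    (hH : IsSecondCohomology f h D Φ W N) :
    Φ.IsSemisimple ∧ (∀ μ : E, Φ.maxGenEigenspace μ = Φ.eigenspace μ) ∧
      Squarefree (Φ.restrict hH.stable).charpoly := by
  have h1 := squarefree_part h2 hf hH
  have h3 : Φ.IsSemisimple := by
    obtain ⟨r, hr, hN⟩ := hH.divisors
    refine Pool.Agent.TH943.SF.semisimple_sum Φ h1 W N hH.sum.sup_eq_top ?_ hr ?_ hN
    · intro v hv
      have h4 := LinearMap.aeval_self_charpoly (Φ.restrict hH.stable)
      have h5 := congrArg (fun A => ((A ⟨v, hv⟩ : W) : V)) h4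
      simp only [LinearMap.zero_apply, ZeroMemClass.coe_zero] at h5
      rw [← h5]
      have h6 : ∀ (p : E[X]) (w : W), ((aeval (Φ.restrict hH.stable) p w : W) : V) =
          aeval Φ p (w : V) := by
        intro p w
        induction p using Polynomial.induction_on' with
        | add a b ha hb => rw [map_add, map_add, LinearMap.add_apply, LinearMap.add_apply,
            Submodule.coe_add, ha, hb]
        | monomial j a =>
          rw [aeval_monomial, aeval_monomial, Module.End.mul_apply, Module.End.mul_apply,
            Module.algebraMap_end_apply, Module.algebraMap_end_apply, Submodule.coe_smul]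
          congr 1
          induction j with
          | zero => rfl
          | succ j ih =>
            rw [pow_succ', pow_succ', Module.End.mul_apply, Module.End.mul_apply, ← ih]
            rfl
      exact (h6 _ ⟨v, hv⟩).symm
    · exact pow_ne_zero _ (by exact_mod_cast Nat.card_pos.ne')
  refine ⟨h3, fun μ => ?_, h1⟩
  exact h3.isFinitelySemisimple.maxGenEigenspace_eq_eigenspace μ

end Pool.Agent.Results.MP_1fe969_ag.SquarefreePencils
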